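import Pool.Agent.Q55.LM.Stm

set_option autoImplicit false

namespace Pool.Agent.Q187.LM

open Module Pool.Agent.Q55.LM

/-- the quotient by a nonzero ideal is finite -/
theorem fin_ideal (B : Type) [CommRing B] [Algebra ℂ B]
    (h : ∀ b : B, b ≠ 0 → Module.Finite ℂ (B ⧸ Ideal.span ({b} : Set B)))
    (I : Ideal B) (hI : I ≠ ⊥) : Module.Finite ℂ (B ⧸ I) := by
  obtain ⟨b, hb, hb0⟩ := Submodule.exists_mem_ne_zero_of_ne_bot hI
  have := h b hb0
  have hle : Ideal.span ({b} : Set B) ≤ I := (Ideal.span_singleton_le_iff_mem I).2 hb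
  exact Module.Finite.of_surjective (Ideal.Quotient.factorₐ ℂ hle).toLinearMap
    (Ideal.Quotient.factor_surjective hle)

theorem t_fq : S_FQ := by
  intro B _ _ _ h I J hI hJ
  set K := I * J with hK
  have hK0 : K ≠ ⊥ := mul_ne_zero hI hJ
  have hKI : K ≤ I := Ideal.mul_le_left
  have hfin : Module.Finite ℂ (B ⧸ K) := fin_ideal B h K hK0
  have hfinI : Module.Finite ℂ (B ⧸ I) := fin_ideal B h I hI
  refine ⟨hfin, ?_⟩
  obtain ⟨a, ha⟩ := IsDedekindDomain.exists_sup_span_eq hKI hK0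
  have haI : a ∈ I := by
    rw [← ha]
    exact Submodule.mem_sup_right (Ideal.mem_span_singleton_self a)
  -- the multiplication by a
  let φ : B →ₗ[ℂ] B ⧸ K :=
    (Ideal.Quotient.mkₐ ℂ K).toLinearMap.comp (LinearMap.mulLeft ℂ a)
  have hφ : ∀ b, φ b = Ideal.Quotient.mk K (a * b) := fun _ => rfl
  let ψ : (B ⧸ K) →ₗ[ℂ] B ⧸ I := (Ideal.Quotient.factorₐ ℂ hKI).toLinearMap
  have hψ : ∀ b, ψ (Ideal.Quotient.mk K b) = Ideal.Quotient.mk I b := fun _ => rfl
  have hψs : Function.Surjective ψ := Ideal.Quotient.factor_surjective hKI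
  have hker : LinearMap.ker φ = J.restrictScalars ℂ := by
    ext b
    rw [LinearMap.mem_ker, hφ, Ideal.Quotient.eq_zero_iff_mem, Submodule.restrictScalars_mem]
    constructor
    · intro hb
      have hdiv : I * J ∣ I * Ideal.span {b} := by
        rw [Ideal.dvd_iff_le]
        have e1 : I * Ideal.span {b} = (K ⊔ Ideal.span {a}) * Ideal.span {b} := by rw [ha]
        rw [e1, Ideal.sup_mul]
        apply sup_le
        · exact Ideal.mul_le_left
        · rw [Ideal.span_singleton_mul_span_singleton, Ideal.span_singleton_le_iff_mem]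
          exact hb
      rw [mul_dvd_mul_iff_left hI, Ideal.dvd_iff_le, Ideal.span_singleton_le_iff_mem] at hdiv
      exact hdiv
    · intro hb
      exact Ideal.mul_mem_mul haI hb
  have hrange : LinearMap.range φ = LinearMap.ker ψ := by
    ext x
    constructor
    · rintro ⟨b, rfl⟩
      rw [LinearMap.mem_ker, hφ, hψ, Ideal.Quotient.eq_zero_iff_mem]
      exact I.mul_mem_right b haI
    · intro hx
      obtain ⟨x, rfl⟩ := Ideal.Quotient.mk_surjective x
      rw [LinearMap.mem_ker, hψ, Ideal.Quotient.eq_zero_iff_mem, ← ha] at hx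
      obtain ⟨k, hk, y, hy, rfl⟩ := Submodule.mem_sup.1 hx
      obtain ⟨b, rfl⟩ := Ideal.mem_span_singleton'.1 hy
      refine ⟨b, ?_⟩
      rw [hφ, map_add, Ideal.Quotient.eq_zero_iff_mem.2 hk, zero_add, mul_comm]
  have e1 : finrank ℂ (B ⧸ J) = finrank ℂ (LinearMap.range φ) := by
    have q1 : (B ⧸ J.restrictScalars ℂ) ≃ₗ[ℂ] B ⧸ J := Submodule.Quotient.restrictScalarsEquiv ℂ J
    have q2 : (B ⧸ LinearMap.ker φ) ≃ₗ[ℂ] (B ⧸ J.restrictScalars ℂ) :=
      Submodule.quotEquivOfEq _ _ hker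
    exact ((q2.trans q1).symm.trans φ.quotKerEquivRange).finrank_eq
  have e2 := LinearMap.finrank_range_add_finrank_ker ψ
  rw [LinearMap.range_eq_top.2 hψs, finrank_top, ← hrange, ← e1] at e2
  exact e2.symm

end Pool.Agent.Q187.LM
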