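import Pool.Agent.Q55.LM.Stm

set_option autoImplicit false

namespace Pool.Agent.Q187.LM

open Module Pool.Agent.Q55.LM

theorem chain_three {R : Type} [CommRing R] (P Q M : Ideal R) [hP : P.IsPrime] [hQ : Q.IsPrime]
    [hM : M.IsPrime] (h1 : P < Q) (h2 : Q < M) : 2 ≤ ringKrullDim R := by
  let p : PrimeSpectrum R := ⟨P, hP⟩
  let q : PrimeSpectrum R := ⟨Q, hQ⟩
  let m : PrimeSpectrum R := ⟨M, hM⟩
  have hpq : p < q := h1
  have hqm : q < m := h2
  have hpm : p < m := hpq.trans hqm
  let L : LTSeries (PrimeSpectrum R) := LTSeries.mk 2 ![p, q, m] (by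
    rw [Fin.strictMono_iff_lt_succ]
    intro i
    fin_cases i
    · exact hpq
    · exact hqm)
  exact Order.LTSeries.length_le_krullDim L

theorem t_klow : S_KLow := by
  intro B _ _ _ g n hn ev
  -- the evaluation
  let θ : SR g n →+* PowerSeries ℂ := (PowerSeries.map (ev : B →+* ℂ)).comp (SR g n).toSubring.subtype
  let χ : SR g n →+* ℂ := PowerSeries.constantCoeff.comp θ
  have hθ : ∀ (b : SR g n) (j : ℕ), PowerSeries.coeff j (θ b) =
      ev (PowerSeries.coeff j (b : PowerSeries B)) := by
    intro b j
    show PowerSeries.coeff j (PowerSeries.map (ev : B →+* ℂ) (b : PowerSeries B)) = _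
    rw [PowerSeries.coeff_map]
    rfl
  have h1 : (⊥ : Ideal (SR g n)) < RingHom.ker θ := by
    rw [bot_lt_iff_ne_bot]
    -- an element of the kernel of ev
    have hfin : Module.Finite ℂ (g.fil (n * 2)) := by
      apply Module.finite_of_finrank_pos
      rw [g.finrank_fil _ (by omega)]
      omega
    let e : g.fil (n * 2) →ₗ[ℂ] ℂ := ev.toLinearMap.comp (g.fil (n * 2)).subtype
    have hk : 0 < finrank ℂ (LinearMap.ker e) := by
      have h := LinearMap.finrank_range_add_finrank_ker e
      have h2 : finrank ℂ (LinearMap.range e) ≤ 1 := by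
        have := Submodule.finrank_le (LinearMap.range e)
        rwa [finrank_self] at this
      rw [g.finrank_fil _ (by omega)] at h
      omega
    have hne : LinearMap.ker e ≠ ⊥ := by
      intro h
      rw [h, finrank_bot] at hk
      exact lt_irrefl _ hk
    obtain ⟨b, hb, hb0⟩ := Submodule.exists_mem_ne_zero_of_ne_bot hne
    have hbm : PowerSeries.monomial 2 (b : B) ∈ SR g n := by
      intro j
      rw [PowerSeries.coeff_monomial]
      split_ifs with hj
      · rw [hj]; exact b.2
      · exact Submodule.zero_mem _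
    intro h0
    have hmem : (⟨PowerSeries.monomial 2 (b : B), hbm⟩ : SR g n) ∈ RingHom.ker θ := by
      rw [RingHom.mem_ker]
      ext j
      rw [hθ, map_zero]
      show ev (PowerSeries.coeff j (PowerSeries.monomial 2 (b : B))) = 0
      rw [PowerSeries.coeff_monomial]
      split_ifs with hj
      · exact hb
      · rw [map_zero]
    rw [h0, Ideal.mem_bot] at hmem
    have h3 : PowerSeries.monomial 2 (b : B) = 0 := congrArg Subtype.val hmem
    have h4 := congrArg (PowerSeries.coeff 2) h3
    rw [PowerSeries.coeff_monomial_same, map_zero] at h4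
    exact hb0 (Subtype.ext h4)
  have h2 : RingHom.ker θ < RingHom.ker χ := by
    have hle : RingHom.ker θ ≤ RingHom.ker χ := by
      intro b hb
      rw [RingHom.mem_ker] at hb ⊢
      show PowerSeries.constantCoeff (θ b) = 0
      rw [hb, map_zero]
    refine lt_of_le_of_ne hle ?_
    intro he
    have hX : (PowerSeries.X : PowerSeries B) ∈ SR g n := by
      intro j
      rw [PowerSeries.coeff_X]
      split_ifs with hj
      · exact g.one_mem _
      · exact Submodule.zero_mem _
    have hm : (⟨PowerSeries.X, hX⟩ : SR g n) ∈ RingHom.ker χ := by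
      rw [RingHom.mem_ker]
      show PowerSeries.constantCoeff (θ _) = 0
      rw [← PowerSeries.coeff_zero_eq_constantCoeff_apply, hθ]
      show ev (PowerSeries.coeff 0 (PowerSeries.X : PowerSeries B)) = 0
      rw [PowerSeries.coeff_zero_X, map_zero]
    rw [← he, RingHom.mem_ker] at hm
    have h3 := hθ ⟨PowerSeries.X, hX⟩ 1
    rw [hm, map_zero] at h3
    have h4 : PowerSeries.coeff 1 (PowerSeries.X : PowerSeries B) = 1 := PowerSeries.coeff_one_X
    have h5 : ev (PowerSeries.coeff 1 (PowerSeries.X : PowerSeries B)) = 0 := h3.symm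
    rw [h4, map_one] at h5
    exact one_ne_zero h5
  have i1 : (⊥ : Ideal (SR g n)).IsPrime := Ideal.isPrime_bot
  have i2 : (RingHom.ker θ).IsPrime := RingHom.ker_isPrime θ
  have i3 : (RingHom.ker χ).IsPrime := RingHom.ker_isPrime χ
  exact chain_three _ _ _ h1 h2

end Pool.Agent.Q187.LM
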