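import Pool.Agent.Q187.LM.LOC

set_option autoImplicit false

namespace Pool.Agent.Q187.LM

open Module Pool.Agent.Q55.LM

/-- a series without constant term -/
theorem series_split (s : MvPowerSeries (Fin 3) ℂ) (h : MvPowerSeries.constantCoeff s = 0) :
    ∃ a b c : MvPowerSeries (Fin 3) ℂ, s = MvPowerSeries.X 0 * a + MvPowerSeries.X 1 * b +
      MvPowerSeries.X 2 * c := by
  classical
  let s0 : MvPowerSeries (Fin 3) ℂ := fun m => if m 0 = 0 then 0 else s m
  let s1 : MvPowerSeries (Fin 3) ℂ := fun m => if m 0 = 0 then (if m 1 = 0 then 0 else s m) else 0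
  let s2 : MvPowerSeries (Fin 3) ℂ := fun m => if m 0 = 0 then (if m 1 = 0 then s m else 0) else 0
  have d0 : (MvPowerSeries.X 0 : MvPowerSeries (Fin 3) ℂ) ∣ s0 := by
    rw [MvPowerSeries.X_dvd_iff]
    intro m hm
    show (if m 0 = 0 then 0 else s m) = 0
    rw [if_pos hm]
  have d1 : (MvPowerSeries.X 1 : MvPowerSeries (Fin 3) ℂ) ∣ s1 := by
    rw [MvPowerSeries.X_dvd_iff]
    intro m hm
    show (if m 0 = 0 then (if m 1 = 0 then 0 else s m) else 0) = 0
    rw [if_pos hm, ite_self]
  have d2 : (MvPowerSeries.X 2 : MvPowerSeries (Fin 3) ℂ) ∣ s2 := by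
    rw [MvPowerSeries.X_dvd_iff]
    intro m hm
    show (if m 0 = 0 then (if m 1 = 0 then s m else 0) else 0) = 0
    split_ifs with h0 h1
    · have : m = 0 := by
        ext i
        fin_cases i
        · exact h0
        · exact h1
        · exact hm
      rw [this]
      exact h
    · rfl
    · rfl
  obtain ⟨a, ha⟩ := d0
  obtain ⟨b, hb⟩ := d1
  obtain ⟨c, hc⟩ := d2
  refine ⟨a, b, c, ?_⟩
  rw [← ha, ← hb, ← hc]
  funext m
  show s m = (if m 0 = 0 then 0 else s m) + (if m 0 = 0 then (if m 1 = 0 then 0 else s m) else 0) +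
    (if m 0 = 0 then (if m 1 = 0 then s m else 0) else 0)
  split_ifs <;> simp

theorem dim_le (f : MvPolynomial (Fin 3) ℂ) (hf : f.coeff 0 = 0) (n : ℕ)
    (u v : MvPowerSeries (Fin 3) ℂ)
    (h : (f : MvPowerSeries (Fin 3) ℂ) = MvPowerSeries.X 0 ^ n + MvPowerSeries.X 1 * u +
      MvPowerSeries.X 2 * v) :
    ringKrullDim (PowerSeries (Rf f)) ≤ 3 := by
  classical
  obtain ⟨hloc, -⟩ := t_loc f hf
  have hnoeth : IsNoetherianRing (PowerSeries (Rf f)) := inferInstance
  let q : MvPowerSeries (Fin 3) ℂ →+* Rf f := Ideal.Quotient.mk _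
  let Cq : MvPowerSeries (Fin 3) ℂ →+* PowerSeries (Rf f) := PowerSeries.C.comp q
  let S : Finset (PowerSeries (Rf f)) :=
    {Cq (MvPowerSeries.X 1), Cq (MvPowerSeries.X 2), PowerSeries.X}
  let I : Ideal (PowerSeries (Rf f)) := Ideal.span (S : Set (PowerSeries (Rf f)))
  have hy : Cq (MvPowerSeries.X 1) ∈ I := Ideal.subset_span (by simp [S])
  have hz : Cq (MvPowerSeries.X 2) ∈ I := Ideal.subset_span (by simp [S])
  have hT : PowerSeries.X ∈ I := Ideal.subset_span (by simp [S])
  have hf0 : Cq (f : MvPowerSeries (Fin 3) ℂ) = 0 := by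
    show PowerSeries.C (q _) = 0
    have : q (f : MvPowerSeries (Fin 3) ℂ) = 0 :=
      Ideal.Quotient.eq_zero_iff_mem.2 (Ideal.mem_span_singleton_self _)
    rw [this, map_zero]
  have hx : Cq (MvPowerSeries.X 0) ^ n ∈ I := by
    have hf1 := congrArg Cq h
    rw [hf0, map_add, map_add, map_mul, map_mul, map_pow] at hf1
    have e : Cq (MvPowerSeries.X 0) ^ n = -(Cq (MvPowerSeries.X 1) * Cq u +
        Cq (MvPowerSeries.X 2) * Cq v) := by
      linear_combination -hf1
    rw [e]
    exact I.neg_mem (I.add_mem (I.mul_mem_right _ hy) (I.mul_mem_right _ hz))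
  -- the maximal ideal
  set M := IsLocalRing.maximalIdeal (PowerSeries (Rf f)) with hM
  have key : ∀ P : Ideal (PowerSeries (Rf f)), P.IsPrime → I ≤ P → M ≤ P := by
    intro P hP hIP a ha
    have hxP : Cq (MvPowerSeries.X 0) ∈ P := hP.mem_of_pow_mem n (hIP hx)
    -- constant coefficient
    obtain ⟨s, hs⟩ := Ideal.Quotient.mk_surjective (PowerSeries.constantCoeff a)
    have hs0 : MvPowerSeries.constantCoeff s = 0 := by
      by_contra hne
      rw [hM, IsLocalRing.mem_maximalIdeal, mem_nonunits_iff] at ha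
      apply ha
      rw [PowerSeries.isUnit_iff_constantCoeff, ← hs]
      apply RingHom.isUnit_map
      rw [MvPowerSeries.isUnit_iff_constantCoeff]
      exact isUnit_iff_ne_zero.2 hne
    obtain ⟨b0, b1, b2, hb⟩ := series_split s hs0
    have h1 : a = (PowerSeries.mk fun p => PowerSeries.coeff (p + 1) a) * PowerSeries.X +
        PowerSeries.C (PowerSeries.constantCoeff a) := PowerSeries.eq_shift_mul_X_add_const a
    rw [h1]
    apply P.add_mem
    · exact P.mul_mem_left _ (hIP hT)
    · have h2 : PowerSeries.C (PowerSeries.constantCoeff a) = Cq s := by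
        rw [← hs]
        rfl
      rw [h2, hb, map_add, map_add, map_mul, map_mul, map_mul]
      exact P.add_mem (P.add_mem (P.mul_mem_right _ hxP) (P.mul_mem_right _ (hIP hy)))
        (P.mul_mem_right _ (hIP hz))
  have hIM : I ≤ M := by
    apply Ideal.span_le.2
    have hnu : ∀ a : PowerSeries (Rf f), (ev0 f hf) (PowerSeries.constantCoeff a) = 0 → a ∈ M := by
      intro a ha
      rw [hM, IsLocalRing.mem_maximalIdeal, mem_nonunits_iff]
      intro hu
      have h2 := (hu.map (PowerSeries.constantCoeff (R := Rf f))).map (ev0 f hf)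
      rw [ha] at h2
      exact not_isUnit_zero h2
    intro a ha
    have ha' : a = Cq (MvPowerSeries.X 1) ∨ a = Cq (MvPowerSeries.X 2) ∨ a = PowerSeries.X := by
      simpa [S] using ha
    apply hnu
    rcases ha' with rfl | rfl | rfl
    · show ev0 f hf (PowerSeries.constantCoeff (PowerSeries.C (q _))) = 0
      rw [PowerSeries.constantCoeff_C]
      show MvPowerSeries.constantCoeff (MvPowerSeries.X 1 : MvPowerSeries (Fin 3) ℂ) = 0
      exact MvPowerSeries.constantCoeff_X 1
    · show ev0 f hf (PowerSeries.constantCoeff (PowerSeries.C (q _))) = 0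
      rw [PowerSeries.constantCoeff_C]
      show MvPowerSeries.constantCoeff (MvPowerSeries.X 2 : MvPowerSeries (Fin 3) ℂ) = 0
      exact MvPowerSeries.constantCoeff_X 2
    · rw [PowerSeries.constantCoeff_X, map_zero]
  have hmin : M ∈ I.minimalPrimes := by
    refine ⟨⟨inferInstance, hIM⟩, ?_⟩
    rintro P ⟨hP, hIP⟩ _
    exact key P hP hIP
  have h3 := Ideal.height_le_spanRank_toENat_of_mem_minimalPrimes I M hmin
  rw [← IsLocalRing.maximalIdeal_height_eq_ringKrullDim]
  have h4 : I.spanRank.toENat ≤ 3 := by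
    rw [I.spanRank_toENat_eq_iInf_finset_card]
    refine (iInf_le _ ⟨S, rfl⟩).trans ?_
    have : S.card ≤ 3 := Finset.card_le_three
    exact_mod_cast this
  have h5 := h3.trans h4
  have h6 : ((M.height : ℕ∞) : WithBot ℕ∞) ≤ ((3 : ℕ∞) : WithBot ℕ∞) := WithBot.coe_le_coe.2 h5
  exact h6

theorem t_kup : S_KUp := by
  intro l
  refine ⟨?_, ?_, ?_⟩
  · refine dim_le (fX l) ?_ 2 (MvPowerSeries.X 1 ^ 3 + MvPowerSeries.C l * MvPowerSeries.X 0 *
      MvPowerSeries.X 2) (MvPowerSeries.X 2 ^ 3) ?_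
    · have : (fX l).coeff 0 = MvPolynomial.constantCoeff (fX l) := rfl
      rw [this]
      unfold fX
      simp
    · unfold fX
      push_cast
      ring
  · refine dim_le (fJ l) ?_ 2 (MvPowerSeries.X 1 ^ 2 + MvPowerSeries.C l * MvPowerSeries.X 0 *
      MvPowerSeries.X 2) (MvPowerSeries.X 2 ^ 5) ?_
    · have : (fJ l).coeff 0 = MvPolynomial.constantCoeff (fJ l) := rfl
      rw [this]
      unfold fJ
      simp
    · unfold fJ
      push_cast
      ring
  · refine dim_le (fT l) ?_ 3 (MvPowerSeries.X 1 ^ 2 + MvPowerSeries.C l * MvPowerSeries.X 0 *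
      MvPowerSeries.X 2) (MvPowerSeries.X 2 ^ 2) ?_
    · have : (fT l).coeff 0 = MvPolynomial.constantCoeff (fT l) := rfl
      rw [this]
      unfold fT
      simp
    · unfold fT
      push_cast
      ring

end Pool.Agent.Q187.LM
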