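import Pool.Agent.Q55.LM.Stm

set_option autoImplicit false

namespace Pool.Agent.Q187.LM

open Module Pool.Agent.Q55.LM

theorem const_coe (f : MvPolynomial (Fin 3) ℂ) :
    MvPowerSeries.constantCoeff (f : MvPowerSeries (Fin 3) ℂ) = f.coeff 0 := by
  rw [← MvPowerSeries.coeff_zero_eq_constantCoeff_apply, MvPolynomial.coeff_coe]

/-- the value at the singular point -/
noncomputable def ev0 (f : MvPolynomial (Fin 3) ℂ) (hf : f.coeff 0 = 0) : Rf f →+* ℂ :=
  Ideal.Quotient.lift _ (MvPowerSeries.constantCoeff (σ := Fin 3) (R := ℂ)) (by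
    intro a ha
    obtain ⟨b, rfl⟩ := Ideal.mem_span_singleton'.1 ha
    rw [map_mul, const_coe, hf, mul_zero])

theorem ev0_alg (f : MvPolynomial (Fin 3) ℂ) (hf : f.coeff 0 = 0) (z : ℂ) :
    ev0 f hf (algebraMap ℂ (Rf f) z) = z := by
  have e : algebraMap ℂ (Rf f) z = Ideal.Quotient.mk _ (algebraMap ℂ (MvPowerSeries (Fin 3) ℂ) z) :=
    rfl
  rw [e]
  show MvPowerSeries.constantCoeff (algebraMap ℂ (MvPowerSeries (Fin 3) ℂ) z) = z
  rw [MvPowerSeries.algebraMap_apply]
  simp

theorem local_Rf (f : MvPolynomial (Fin 3) ℂ) (hf : f.coeff 0 = 0) : IsLocalRing (Rf f) := by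
  have : Nontrivial (Rf f) := (ev0 f hf).domain_nontrivial
  exact IsLocalRing.of_surjective' (Ideal.Quotient.mk (Ideal.span {(f : MvPowerSeries (Fin 3) ℂ)}))
    Ideal.Quotient.mk_surjective

theorem t_loc : S_Loc := by
  intro f hf
  have h1 := local_Rf f hf
  refine ⟨inferInstanceAs (IsLocalRing (MvPowerSeries Unit (Rf f))), ?_⟩
  intro a
  let E : PowerSeries (Rf f) →+* ℂ := (ev0 f hf).comp PowerSeries.constantCoeff
  refine ⟨E a, ?_⟩
  intro hu
  have h2 := hu.map E
  have h3 : E (algebraMap ℂ (PowerSeries (Rf f)) (E a)) = E a := by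
    show ev0 f hf (PowerSeries.constantCoeff (algebraMap ℂ (PowerSeries (Rf f)) (E a))) = E a
    rw [PowerSeries.algebraMap_apply, PowerSeries.constantCoeff_C]
    exact ev0_alg f hf _
  rw [map_sub, h3, sub_self] at h2
  exact not_isUnit_zero h2

end Pool.Agent.Q187.LM
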