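import Pool.Agent.Q187.LM.FQ

set_option autoImplicit false

namespace Pool.Agent.Q187.LM

open Module Pool.Agent.Q55.LM

section
variable {B : Type} [CommRing B] [Algebra ℂ B]

theorem le_fil (g : Gen1 B) (V : Submodule ℂ B) (hV : Module.Finite ℂ V) : ∃ i, V ≤ g.fil i := by
  obtain ⟨S, hS⟩ := (Module.Finite.iff_fg.1 hV : V.FG)
  refine ⟨S.sup g.deg, ?_⟩
  rw [← hS, Submodule.span_le]
  intro s hs
  exact (g.mem_fil _ _).2 (Finset.le_sup hs)

theorem bdd (g : Gen1 B) (V : Submodule ℂ B) (hV : Module.Finite ℂ V) :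
    BddAbove (g.deg '' (V : Set B)) := by
  obtain ⟨i, hi⟩ := le_fil g V hV
  refine ⟨i, ?_⟩
  rintro _ ⟨v, hv, rfl⟩
  exact (g.mem_fil _ _).1 (hi hv)

theorem deg_le_top (g : Gen1 B) (V : Submodule ℂ B) (hV : Module.Finite ℂ V) (v : B) (hv : v ∈ V) :
    g.deg v ≤ g.top V := le_csSup (bdd g V hV) ⟨v, hv, rfl⟩

theorem exists_top (g : Gen1 B) (V : Submodule ℂ B) (hV : Module.Finite ℂ V) (h0 : V ≠ ⊥) :
    ∃ v ∈ V, v ≠ 0 ∧ g.deg v = g.top V := by
  have hne : (g.deg '' (V : Set B)).Nonempty := ⟨_, 0, V.zero_mem, rfl⟩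
  obtain ⟨v, hv, he⟩ := Nat.sSup_mem hne (bdd g V hV)
  by_cases hv0 : v = 0
  · obtain ⟨w, hw, hw0⟩ := Submodule.exists_mem_ne_zero_of_ne_bot h0
    refine ⟨w, hw, hw0, ?_⟩
    have h1 := deg_le_top g V hV w hw
    have h2 : g.top V = 0 := by
      unfold Gen1.top
      rw [← he, hv0, g.deg_zero]
    omega
  · exact ⟨v, hv, hv0, he⟩

theorem top_le (g : Gen1 B) (V : Submodule ℂ B) (i : ℕ) (h : V ≤ g.fil i) : g.top V ≤ i := by
  unfold Gen1.top
  apply csSup_le (⟨g.deg 0, 0, V.zero_mem, rfl⟩ : (g.deg '' (V : Set B)).Nonempty)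
  rintro _ ⟨v, hv, rfl⟩
  exact (g.mem_fil _ _).1 (h hv)

theorem le_fil_top (g : Gen1 B) (V : Submodule ℂ B) (hV : Module.Finite ℂ V) :
    V ≤ g.fil (g.top V) := fun v hv => (g.mem_fil _ _).2 (deg_le_top g V hV v hv)

theorem fil_fin (g : Gen1 B) (i : ℕ) : Module.Finite ℂ (g.fil i) := by
  apply Module.finite_of_finrank_pos
  rcases Nat.eq_zero_or_pos i with h | h
  · rw [h, g.finrank_fil_zero]; norm_num
  · rw [g.finrank_fil i h]; exact h

theorem span_span (V : Submodule ℂ B) (X : Set B) (h : V = Submodule.span ℂ X) :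
    Ideal.span (V : Set B) = Ideal.span X := by
  rw [h]
  exact Submodule.span_span_of_tower ℂ B X

theorem span_ne (V : Submodule ℂ B) (h : V ≠ ⊥) : Ideal.span (V : Set B) ≠ ⊥ := by
  obtain ⟨v, hv, hv0⟩ := Submodule.exists_mem_ne_zero_of_ne_bot h
  intro h1
  have : v ∈ Ideal.span (V : Set B) := Ideal.subset_span hv
  rw [h1] at this
  exact hv0 this

theorem span_mul (V W : Submodule ℂ B) : Ideal.span ((V * W : Submodule ℂ B) : Set B) =
    Ideal.span (V : Set B) * Ideal.span (W : Set B) := by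
  rw [Ideal.span_mul_span']
  exact span_span (V * W) _ (Submodule.mul_eq_span_mul_set V W)

theorem deg_smul (g : Gen1 B) (c : ℂ) (hc : c ≠ 0) (s : B) : g.deg (c • s) = g.deg s := by
  apply le_antisymm
  · apply (g.mem_fil _ _).1
    exact Submodule.smul_mem _ _ ((g.mem_fil _ _).2 le_rfl)
  · apply (g.mem_fil _ _).1
    have h1 : s = c⁻¹ • (c • s) := by rw [smul_smul, inv_mul_cancel₀ hc, one_smul]
    rw [h1]
    apply Submodule.smul_mem
    rw [← h1]
    exact (g.mem_fil _ _).2 le_rfl

end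

theorem t_mu (h : S_FQ) : S_Mu := by
  intro B _ _ _ g
  refine ⟨fil_fin g, exists_top g, deg_le_top g, ?_, ?_, ?_⟩
  · intro V W hV hW hV0 hW0
    have hVW : Module.Finite ℂ (V * W : Submodule ℂ B) := by
      have h1 : V.FG := Module.Finite.iff_fg.1 hV
      have h2 : W.FG := Module.Finite.iff_fg.1 hW
      exact Module.Finite.iff_fg.2 (h1.mul h2)
    have htop : g.top (V * W) = g.top V + g.top W := by
      apply le_antisymm
      · apply top_le
        rw [Submodule.mul_le]
        intro v hv w hw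
        exact g.mul_mem (le_fil_top g V hV hv) (le_fil_top g W hW hw)
      · obtain ⟨v, hv, hv0, hve⟩ := exists_top g V hV hV0
        obtain ⟨w, hw, hw0, hwe⟩ := exists_top g W hW hW0
        rw [← hve, ← hwe, ← g.deg_mul v w hv0 hw0]
        exact deg_le_top g (V * W) hVW _ (Submodule.mul_mem_mul hv hw)
    have hq := (h B g.fin_quot (Ideal.span (V : Set B)) (Ideal.span (W : Set B))
      (span_ne V hV0) (span_ne W hW0)).2
    rw [← span_mul] at hq
    unfold Gen1.mu
    rw [htop, hq]
    push_cast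
    ring
  · intro V W hW hV0 hVW
    have hV : Module.Finite ℂ V := Submodule.finiteDimensional_of_le hVW
    have htop : g.top V ≤ g.top W := by
      apply top_le
      exact hVW.trans (le_fil_top g W hW)
    have hle : Ideal.span (V : Set B) ≤ Ideal.span (W : Set B) := Ideal.span_mono hVW
    have hfin : Module.Finite ℂ (B ⧸ Ideal.span (V : Set B)) :=
      fin_ideal B g.fin_quot _ (span_ne V hV0)
    have hq : finrank ℂ (B ⧸ Ideal.span (W : Set B)) ≤ finrank ℂ (B ⧸ Ideal.span (V : Set B)) := by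
      have hs : Function.Surjective (Ideal.Quotient.factorₐ ℂ hle).toLinearMap :=
        Ideal.Quotient.factor_surjective hle
      have := LinearMap.finrank_range_add_finrank_ker (Ideal.Quotient.factorₐ ℂ hle).toLinearMap
      rw [LinearMap.range_eq_top.2 hs, finrank_top] at this
      omega
    unfold Gen1.mu
    omega
  · intro s hs
    have h1 : Ideal.span ((Submodule.span ℂ {s} : Submodule ℂ B) : Set B) = Ideal.span {s} :=
      span_span _ _ rfl
    have hfin : Module.Finite ℂ (Submodule.span ℂ {s} : Submodule ℂ B) := inferInstance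
    have htop : g.top (Submodule.span ℂ {s}) = g.deg s := by
      apply le_antisymm
      · apply top_le
        rw [Submodule.span_singleton_le_iff_mem]
        exact (g.mem_fil _ _).2 le_rfl
      · exact deg_le_top g _ hfin s (Submodule.mem_span_singleton_self s)
    unfold Gen1.mu
    rw [htop, h1, g.finrank_quot s hs, sub_self]

end Pool.Agent.Q187.LM
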